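import Pool.Agent.H23.DM.TargetsA
import Pool.Agent.H23.DM.TargetsG
import Pool.Agent.H28.RC.Targets1
import Pool.Agent.H31.SW.TargetsG

/-!
# (RT) the sum over the residue classes
-/

set_option autoImplicit false

open NumberField NumberField.InfinitePlace MeasureTheory Set Filter Complex
open scoped nonZeroDivisors ENNReal

namespace Pool.Agent.H1.DMX.RT

open Pool.Agent.H25.HK Pool.Agent.H23.LB Pool.Agent.H23.LC
open Pool.Agent.H28.RC (Rep T_RX)
open Pool.Agent.H29.DW (Rl wv Pos rv)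
open Pool.Agent.H29.TC (Gn LC cq)
open Pool.Agent.H31.SW (EE GG Pf DD PP pF dK W_CU)
open Pool.Agent.H31.SX (LK)
open Pool.Agent.H27.TM (Cls)
open Pool.Agent.H23.DM

section

variable {K : Type} [Field K] [NumberField K]

private lemma rt_le (f : Ideal (𝓞 K)) (M : FI K) : (f : FI K) * M ≤ M := by
  calc (f : FI K) * M ≤ 1 * M := by
        gcongr
        exact FractionalIdeal.coeIdeal_le_one
    _ = M := one_mul M

/-- a set of representatives gives a decomposition -/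
private noncomputable def rtEquiv {f : Ideal (𝓞 K)} {M : FI K} {X : Finset K}
    (h : Rep K f M X) :
    ({r : K // r ∈ X} × {l : K // l ∈ (f : FI K) * M}) ≃ {x : K // x ∈ M} :=
  Equiv.ofBijective (fun p => ⟨p.1.1 + p.2.1,
      M.coeToSubmodule.add_mem (h.1 _ p.1.2) (rt_le f M p.2.2)⟩) (by
    constructor
    · rintro ⟨⟨r, hr⟩, ⟨l, hl⟩⟩ ⟨⟨r', hr'⟩, ⟨l', hl'⟩⟩ hp
      have h1 : r + l = r' + l' := congrArg Subtype.val hp
      have hx : r + l ∈ M := M.coeToSubmodule.add_mem (h.1 _ hr) (rt_le f M hl)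
      obtain ⟨s, -, hs⟩ := h.2 (r + l) hx
      have h2 : r = s := hs r ⟨hr, by rwa [add_sub_cancel_left]⟩
      have h3 : r' = s := hs r' ⟨hr', by rwa [h1, add_sub_cancel_left]⟩
      have h4 : r = r' := h2.trans h3.symm
      subst h4
      have h5 : l = l' := add_left_cancel h1
      subst h5
      rfl
    · rintro ⟨x, hx⟩
      obtain ⟨r, ⟨hr, hr'⟩, -⟩ := h.2 x hx
      exact ⟨⟨⟨r, hr⟩, ⟨x - r, hr'⟩⟩, Subtype.ext (add_sub_cancel r x)⟩)

private lemma rtEquiv_apply {f : Ideal (𝓞 K)} {M : FI K} {X : Finset K} (h : Rep K f M X)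
    (p : {r : K // r ∈ X} × {l : K // l ∈ (f : FI K) * M}) :
    ((rtEquiv h p : {x : K // x ∈ M}) : K) = p.1.1 + p.2.1 := rfl

/-- the sum over the residue classes -/
private lemma rt_sum (j : Ideal (𝓞 K)) (M : FI K) (X : Finset K) (hX : Rep K j M X)
    (cc P : K → ℂ) (E : ℝ)
    (hfin : {x : {x : K // x ∈ M} | P x ≠ 0}.Finite)
    (hcc : ∀ x ∈ M, ∀ l ∈ (j : FI K) * M, cc (x + l) = cc x) (hE : ∀ x ∈ M, ‖cc x‖ ≤ E) :
    ‖∑' x : {x : K // x ∈ M}, cc x * P x‖ ≤
      E * ∑ r ∈ X, ‖∑' l : {l : K // l ∈ (j : FI K) * M}, P (r + l)‖ := by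
  have hs : Summable (fun x : {x : K // x ∈ M} => cc x * P x) := by
    refine summable_of_hasFiniteSupport (hfin.subset fun x hx => ?_)
    intro h
    apply hx
    change cc x * P x = 0
    rw [h, mul_zero]
  have hs2 : Summable (fun q : {r : K // r ∈ X} × {l : K // l ∈ (j : FI K) * M} =>
      cc (q.1.1 + q.2.1) * P (q.1.1 + q.2.1)) := by
    refine (hs.comp_injective (rtEquiv hX).injective).congr fun q => ?_
    rw [Function.comp_apply, rtEquiv_apply hX q]
  have h1 : ∑' x : {x : K // x ∈ M}, cc x * P x =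
      ∑' q : {r : K // r ∈ X} × {l : K // l ∈ (j : FI K) * M},
        cc (q.1.1 + q.2.1) * P (q.1.1 + q.2.1) := by
    rw [← (rtEquiv hX).tsum_eq (fun x : {x : K // x ∈ M} => cc x * P x)]
    refine tsum_congr fun q => ?_
    rw [rtEquiv_apply hX q]
  have h2 : ∀ r : {r : K // r ∈ X},
      ∑' l : {l : K // l ∈ (j : FI K) * M}, cc (r.1 + l.1) * P (r.1 + l.1) =
        cc r.1 * ∑' l : {l : K // l ∈ (j : FI K) * M}, P (r.1 + l.1) := by
    intro r
    rw [← tsum_mul_left]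
    refine tsum_congr fun l => ?_
    rw [hcc r.1 (hX.1 _ r.2) l.1 l.2]
  rw [h1, hs2.tsum_prod, tsum_fintype]
  simp only [h2]
  refine (norm_sum_le _ _).trans ?_
  have h3 : ∀ r ∈ (Finset.univ : Finset {r : K // r ∈ X}),
      ‖cc r.1 * ∑' l : {l : K // l ∈ (j : FI K) * M}, P (r.1 + l.1)‖ ≤
        E * ‖∑' l : {l : K // l ∈ (j : FI K) * M}, P (r.1 + l.1)‖ := by
    intro r _
    rw [norm_mul]
    exact mul_le_mul_of_nonneg_right (hE _ (hX.1 _ r.2)) (norm_nonneg _)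
  refine (Finset.sum_le_sum h3).trans (le_of_eq ?_)
  rw [← Finset.mul_sum]
  congr 1
  exact Finset.sum_coe_sort X
    (fun r => ‖∑' l : {l : K // l ∈ (j : FI K) * M}, P (r + l.1)‖)

private lemma rt_sup {l k : Ideal (𝓞 K)} (h : LK l k) : LK (Ideal.span {(2 : 𝓞 K)} * l) k := by
  have h2 : Ideal.span {(2 : 𝓞 K)} ⊔ k = ⊤ := by
    refine top_le_iff.1 (h.big ▸ ?_)
    refine sup_le_sup_right ?_ k
    rw [Ideal.span_singleton_le_span_singleton]
    exact ⟨105, by norm_num⟩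
  refine ⟨mul_ne_zero ?_ h.l_ne, h.k_ne, ?_, h.big⟩
  · rw [Ne, Ideal.zero_eq_bot, Ideal.span_singleton_eq_bot]
    norm_num
  · rw [← Ideal.isCoprime_iff_sup_eq] at h2 ⊢
    exact h2.mul_left ((Ideal.isCoprime_iff_sup_eq).2 h.cop)

private lemma rt_two (n : ℕ) (hK : Module.finrank ℚ K = n) :
    Nf K (Ideal.span {(2 : 𝓞 K)}) = 2 ^ n := by
  have h := Ideal.absNorm_span_natCast (S := 𝓞 K) 2
  rw [RingOfIntegers.rank, hK] at h
  unfold Nf
  have h2 : ((2 : ℕ) : 𝓞 K) = 2 := by norm_num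
  rw [h2] at h
  rw [h]
  push_cast
  rfl

end

theorem pf_RT (hKF : D_KF) (hRX : Pool.Agent.H28.RC.T_RX) (hCU : Pool.Agent.H31.SW.W_CU) :
    D_RT := by
  classical
  intro n hn
  obtain ⟨B, hB, hKF1⟩ := hKF n hn
  refine ⟨B, hB, fun ε p hε hε1 hp => ?_⟩
  obtain ⟨C, hC, hKF2⟩ := hKF1 ε p hε hε1 hp
  refine ⟨C * 4 ^ B * (2 ^ n) ^ 12, by positivity, ?_⟩
  intro K _ _ hK l k M x₀ y ω τ ι J η c cc D E u hLK hM hgen hω hτ hLC hcls hspc hD hE hper hEb
  set l' : Ideal (𝓞 K) := Ideal.span {(2 : 𝓞 K)} * l with hl'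
  have hLK' : LK l' k := rt_sup hLK
  have hFP : FP l' k M x₀ := ⟨hLK', Ideal.mul_le_left, hM, hgen⟩
  have hr : k.radical ≠ ⊥ := fun h => hLK.k_ne (le_bot_iff.1 (h ▸ Ideal.le_radical))
  set g : Ideal (𝓞 K) := l' * k.radical with hg
  have hg0 : g ≠ ⊥ := mul_ne_zero hLK'.l_ne hr
  have hgl : g ≤ l := Ideal.mul_le_left.trans Ideal.mul_le_right
  obtain ⟨X, hX, hXc⟩ := hRX K g M hg0 hM
  obtain ⟨C₂, -, hC₂⟩ := hCU n hn
  set c' : ι → InfinitePlace K → ℂ := fun j v => c j v + (v.mult : ℂ) * u with hc'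
  set Λ : ℝ := 4 * (1 + |u|) with hΛ
  have hu := abs_nonneg u
  have hfin : ∀ j, {x : {x : K // x ∈ M} | (fun x => cq k (η j) M x₀ x *
      pF (fun v => GG (p (rv v)) (c' j v)) y ω x) x.1 ≠ 0}.Finite := by
    intro j
    have h1 := (hC₂ K hK M y ω (fun _ => 1) (fun _ => 1 / 10000) hM hω
      (fun _ => by norm_num)).1
    refine Set.Finite.of_finite_image (f := Subtype.val) (h1.subset ?_)
      Subtype.val_injective.injOn
    rintro _ ⟨x, hx, rfl⟩
    refine ⟨x.2, fun v => ?_⟩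
    by_contra hv
    apply hx
    have h2 : pF (fun v => GG (p (rv v)) (c' j v)) y ω x.1 = 0 := by
      unfold pF
      refine Finset.prod_eq_zero (Finset.mem_univ v) ?_
      change EE (c' j v * Complex.log (wv v x.1 y ω)) * p (rv v) (wv v x.1 y ω - 1) = 0
      rw [hp.2 _ _ (not_le.1 hv), mul_zero]
    change cq k (η j) M x₀ x.1 * pF (fun v => GG (p (rv v)) (c' j v)) y ω x.1 = 0
    rw [h2, mul_zero]
  -- the hypotheses of (KF)
  have hmu : ∀ v : InfinitePlace K, ‖(v.mult : ℂ) * (u : ℂ)‖ ≤ 2 * |u| := by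
    intro v
    rw [norm_mul, Complex.norm_real, Real.norm_eq_abs, Complex.norm_natCast]
    apply mul_le_mul_of_nonneg_right _ hu
    have : v.mult ≤ 2 := by
      unfold mult
      split_ifs <;> omega
    exact_mod_cast this
  have hpar : ∀ j ∈ J, ∀ v, Rl (rv v) (c' j v) ∧ τ v ≤ Λ * (1 + ‖c' j v‖) ∧
      1 + ‖c' j v‖ ≤ Λ * τ v := by
    intro j hj v
    have h1 := hcls j hj
    have h2 := h1.low v
    have h3 := h1.upp v
    have h4 := h1.real v
    have h5 := hτ v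
    have h6 := hmu v
    refine ⟨?_, ?_, ?_⟩
    · intro hr
      have h7 := h4 hr
      simp only [hc', Complex.add_im, h7, Complex.mul_im, Complex.natCast_re, Complex.ofReal_im,
        Complex.natCast_im, Complex.ofReal_re, mul_zero, zero_mul, add_zero]
    · have h7 : ‖c j v‖ ≤ ‖c' j v‖ + 2 * |u| := by
        calc ‖c j v‖ = ‖c' j v - (v.mult : ℂ) * u‖ := by simp [hc']
          _ ≤ ‖c' j v‖ + ‖(v.mult : ℂ) * (u : ℂ)‖ := norm_sub_le _ _
          _ ≤ _ := by linarith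
      have h8 := norm_nonneg (c' j v)
      rw [hΛ]
      nlinarith [mul_nonneg hu h8]
    · have h7 : ‖c' j v‖ ≤ ‖c j v‖ + 2 * |u| := (norm_add_le _ _).trans (by linarith)
      rw [hΛ]
      nlinarith
  have hspc' : SpE J η c' D := by
    intro η₀ c₀
    have h1 := hspc η₀ (fun v => c₀ v - (v.mult : ℂ) * u)
    refine le_trans (le_of_eq ?_) h1
    congr 2
    apply Finset.filter_congr
    intro j _
    have h2 : ∀ v, c' j v - c₀ v = c j v - (c₀ v - (v.mult : ℂ) * u) := by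
      intro v
      simp only [hc']
      ring
    simp only [h2]
  have hΛ1 : 1 ≤ Λ := by
    rw [hΛ]
    linarith
  have hDD : 0 ≤ DD M y := by
    unfold DD
    refine div_nonneg (Real.exp_nonneg _) ?_
    exact_mod_cast FractionalIdeal.absNorm_nonneg M
  have hNl : 0 < Nf K l := by
    have h1 : Ideal.absNorm l ≠ 0 := fun h => hLK.l_ne (Ideal.absNorm_eq_zero_iff.1 h)
    unfold Nf
    exact_mod_cast Nat.pos_of_ne_zero h1
  have hNk : 0 < Nf K k := by
    have h1 : Ideal.absNorm k ≠ 0 := fun h => hLK.k_ne (Ideal.absNorm_eq_zero_iff.1 h)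
    unfold Nf
    exact_mod_cast Nat.pos_of_ne_zero h1
  have hNl' : Nf K l' = 2 ^ n * Nf K l := by
    rw [← rt_two n hK, hl']
    unfold Nf
    rw [map_mul]
    push_cast
    rfl
  have hll : Nf K l ≤ Nf K l' := by
    rw [hNl']
    exact le_mul_of_one_le_left hNl.le (one_le_pow₀ (by norm_num))
  have hDl : DD M y / Nf K l' ≤ DD M y / Nf K l := div_le_div_of_nonneg_left hDD hNl hll
  have hPP : 0 ≤ PP τ := by
    unfold PP
    exact Finset.prod_nonneg fun v _ => pow_nonneg (by linarith [hτ v]) _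
  have hT : 0 ≤ (Nf K k * PP τ) ^ (1 / 2 : ℝ) := Real.rpow_nonneg (by positivity) _
  have hNr : 0 ≤ Nf K k.radical := by
    unfold Nf
    positivity
  have hdK : 0 ≤ dK K := by
    unfold dK
    positivity
  set Z : ℝ := (1 + DD M y / Nf K l) ^ 6 *
      (1 + DD M y / Nf K l / (Nf K k * PP τ) ^ (1 / 2 : ℝ)) ^ 11 with hZ
  have key : ∀ r ∈ X, ∑ j ∈ J, ‖SQ p ((g : FI K) * M) y ω r (cq k (η j) M x₀) (c' j)‖ ^ 12 ≤
      C * ((D * dK K * Nf K k.radical * Λ) ^ B * (Nf K k * PP τ) ^ (2 + ε) * Z) := by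
    intro r hr
    refine (hKF2 K hK l' k M x₀ y ω r τ ι J η c' D Λ hFP hω (hX.1 r hr) hLC hΛ1 hτ hpar
      hspc' hD).trans ?_
    refine mul_le_mul_of_nonneg_left ?_ hC
    refine mul_le_mul_of_nonneg_left ?_ (by positivity)
    rw [hZ]
    have h0 : 0 ≤ DD M y / Nf K l' := div_nonneg hDD (hNl.le.trans hll)
    have h1 : 0 ≤ DD M y / Nf K l' / (Nf K k * PP τ) ^ (1 / 2 : ℝ) := div_nonneg h0 hT
    have h2 : DD M y / Nf K l' / (Nf K k * PP τ) ^ (1 / 2 : ℝ) ≤
        DD M y / Nf K l / (Nf K k * PP τ) ^ (1 / 2 : ℝ) := div_le_div_of_nonneg_right hDl hT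
    gcongr
  have hterm : ∀ j ∈ J, ‖∑' x : {x : K // x ∈ M}, cc j x * cq k (η j) M x₀ x *
      pF (fun v => GG (p (rv v)) (c j v + (v.mult : ℂ) * u)) y ω x‖ ^ 12 ≤
      E ^ 12 * ((X.card : ℝ) ^ 11 * ∑ r ∈ X,
        ‖SQ p ((g : FI K) * M) y ω r (cq k (η j) M x₀) (c' j)‖ ^ 12) := by
    intro j hj
    have hper' : ∀ x ∈ M, ∀ t ∈ (g : FI K) * M, cc j (x + t) = cc j x := by
      intro x hx t ht
      refine hper j hj x hx t ?_
      have h1 : (g : FI K) * M ≤ (l : FI K) * M := by gcongr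
      exact h1 ht
    have h1 := rt_sum g M X hX (cc j) (fun x => cq k (η j) M x₀ x *
      pF (fun v => GG (p (rv v)) (c' j v)) y ω x) E (hfin j) hper' (hEb j hj)
    have h2 : (∑ r ∈ X, ‖SQ p ((g : FI K) * M) y ω r (cq k (η j) M x₀) (c' j)‖) ^ 12 ≤
        (X.card : ℝ) ^ 11 * ∑ r ∈ X,
          ‖SQ p ((g : FI K) * M) y ω r (cq k (η j) M x₀) (c' j)‖ ^ 12 :=
      pow_sum_le_card_mul_sum_pow (s := X)
        (f := fun r => ‖SQ p ((g : FI K) * M) y ω r (cq k (η j) M x₀) (c' j)‖)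
        (fun _ _ => norm_nonneg _) 11
    calc _ ≤ (E * ∑ r ∈ X, ‖SQ p ((g : FI K) * M) y ω r (cq k (η j) M x₀) (c' j)‖) ^ 12 := by
          refine pow_le_pow_left₀ (norm_nonneg _) (le_trans (le_of_eq ?_) h1) 12
          congr 1
          exact tsum_congr fun x => mul_assoc _ _ _
      _ = E ^ 12 * (∑ r ∈ X, ‖SQ p ((g : FI K) * M) y ω r (cq k (η j) M x₀) (c' j)‖) ^ 12 := by
          rw [mul_pow]
      _ ≤ _ := mul_le_mul_of_nonneg_left h2 (by positivity)
  calc _ ≤ ∑ j ∈ J, E ^ 12 * ((X.card : ℝ) ^ 11 *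
          ∑ r ∈ X, ‖SQ p ((g : FI K) * M) y ω r (cq k (η j) M x₀) (c' j)‖ ^ 12) :=
        Finset.sum_le_sum hterm
    _ = E ^ 12 * ((X.card : ℝ) ^ 11 *
          ∑ r ∈ X, ∑ j ∈ J, ‖SQ p ((g : FI K) * M) y ω r (cq k (η j) M x₀) (c' j)‖ ^ 12) := by
        rw [← Finset.mul_sum, ← Finset.mul_sum, Finset.sum_comm]
    _ ≤ E ^ 12 * ((X.card : ℝ) ^ 11 * ∑ _r ∈ X,
          C * ((D * dK K * Nf K k.radical * Λ) ^ B * (Nf K k * PP τ) ^ (2 + ε) * Z)) := by
        refine mul_le_mul_of_nonneg_left ?_ (by positivity)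
        refine mul_le_mul_of_nonneg_left ?_ (by positivity)
        exact Finset.sum_le_sum key
    _ = _ := by
        rw [Finset.sum_const, nsmul_eq_mul]
        have h3 : (X.card : ℝ) = 2 ^ n * (Nf K l * Nf K k.radical) := by
          rw [hXc, hg]
          have h4 : ((Ideal.absNorm (l' * k.radical) : ℕ) : ℝ) = Nf K l' * Nf K k.radical := by
            unfold Nf
            rw [map_mul]
            push_cast
            rfl
          rw [h4, hNl']
          ring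
        have h1 : D * dK K * Nf K k.radical * Λ =
            4 * (D * dK K * Nf K k.radical * (1 + |u|)) := by
          rw [hΛ]
          ring
        have h2 : 0 ≤ D * dK K * Nf K k.radical * (1 + |u|) := by positivity
        rw [h3, h1, Real.mul_rpow (by norm_num) h2, hZ]
        ring

end Pool.Agent.H1.DMX.RT
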